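import Mathlib

set_option autoImplicit false

namespace Pool.Agent.MP_dc39f7_co

/-! ### Edge-ordered graphs -/

/-- The graph `G` with edge order `oG` contains the graph `F` with edge order `oF`: there is an
injective homomorphism which preserves the order of the edges. -/
def Contains {V W : Type} (F : SimpleGraph V) (oF : LinearOrder F.edgeSet)
    (G : SimpleGraph W) (oG : LinearOrder G.edgeSet) : Prop :=
  ∃ φ : SimpleGraph.Copy F G, ∀ e e' : F.edgeSet,
    oF.lt e e' → oG.lt (φ.mapEdgeSet e) (φ.mapEdgeSet e')

/-- The order chromatic number: the least chromatic number of a finite graph all of whose edge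
orderings contain `F` (it is `⊤` if there is no such graph). -/
noncomputable def orderChromaticNumber {V : Type} (F : SimpleGraph V)
    (oF : LinearOrder F.edgeSet) : ℕ∞ :=
  sInf {c : ℕ∞ | ∃ (n : ℕ) (H : SimpleGraph (Fin n)),
    H.chromaticNumber = c ∧ ∀ oH : LinearOrder H.edgeSet, Contains F oF H oH}

end Pool.Agent.MP_dc39f7_co
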