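import Pool.Agent.MP_dc39f7_co.Defs

set_option autoImplicit false

namespace Pool.Agent.MP_dc39f7_co

open Filter

/-! ### Generic 4-tuples along an ultrafilter -/

theorem exists_good_finset (R : ℕ → ℕ → ℕ → ℕ → Prop)
    (h : ∀ᶠ a in (hyperfilter ℕ : Filter ℕ), ∀ᶠ b in (hyperfilter ℕ : Filter ℕ),
      ∀ᶠ c in (hyperfilter ℕ : Filter ℕ), ∀ᶠ d in (hyperfilter ℕ : Filter ℕ), R a b c d)
    (M : ℕ) :
    ∃ s : Finset ℕ, s.card = M ∧
      (∀ a ∈ s, ∀ᶠ b in (hyperfilter ℕ : Filter ℕ),
        ∀ᶠ c in (hyperfilter ℕ : Filter ℕ), ∀ᶠ d in (hyperfilter ℕ : Filter ℕ), R a b c d) ∧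
      (∀ a ∈ s, ∀ b ∈ s, a < b → 
        ∀ᶠ c in (hyperfilter ℕ : Filter ℕ), ∀ᶠ d in (hyperfilter ℕ : Filter ℕ), R a b c d) ∧
      (∀ a ∈ s, ∀ b ∈ s, ∀ c ∈ s, a < b → b < c →
        ∀ᶠ d in (hyperfilter ℕ : Filter ℕ), R a b c d) ∧
      (∀ a ∈ s, ∀ b ∈ s, ∀ c ∈ s, ∀ d ∈ s, a < b → b < c → c < d → R a b c d) := by
  induction M with
  | zero => exact ⟨∅, by simp⟩
  | succ M ih =>
    obtain ⟨s, hs, h1, h2, h3, h4⟩ := ih
    have e0 : ∀ᶠ y in (hyperfilter ℕ : Filter ℕ), ∀ a ∈ s, a < y := by
      rw [Filter.eventually_all_finset]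
      intro a _
      exact Nat.hyperfilter_le_atTop (Filter.eventually_gt_atTop a)
    have e1 : ∀ᶠ y in (hyperfilter ℕ : Filter ℕ), ∀ a ∈ s,
        ∀ᶠ c in (hyperfilter ℕ : Filter ℕ), ∀ᶠ d in (hyperfilter ℕ : Filter ℕ), R a y c d := by
      rw [Filter.eventually_all_finset]
      exact h1
    have e2 : ∀ᶠ y in (hyperfilter ℕ : Filter ℕ), ∀ a ∈ s, ∀ b ∈ s, a < b →
        ∀ᶠ d in (hyperfilter ℕ : Filter ℕ), R a b y d := by
      rw [Filter.eventually_all_finset]
      intro a ha
      rw [Filter.eventually_all_finset]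
      intro b hb
      by_cases hab : a < b
      · exact (h2 a ha b hb hab).mono fun y hy _ => hy
      · exact Filter.Eventually.of_forall fun y hy => absurd hy hab
    have e3 : ∀ᶠ y in (hyperfilter ℕ : Filter ℕ), ∀ a ∈ s, ∀ b ∈ s, ∀ c ∈ s, a < b → b < c →
        R a b c y := by
      rw [Filter.eventually_all_finset]
      intro a ha
      rw [Filter.eventually_all_finset]
      intro b hb
      rw [Filter.eventually_all_finset]
      intro c hc
      by_cases hab : a < b ∧ b < c
      · exact (h3 a ha b hb c hc hab.1 hab.2).mono fun y hy _ _ => hy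
      · exact Filter.Eventually.of_forall fun y h1 h2 => absurd ⟨h1, h2⟩ hab
    obtain ⟨y, hy, hy0, hy1, hy2, hy3⟩ := (h.and (e0.and (e1.and (e2.and e3)))).exists
    have hys : y ∉ s := fun hmem => lt_irrefl _ (hy0 y hmem)
    have key : ∀ a ∈ insert y s, ∀ b ∈ insert y s, a < b → a ∈ s := by
      intro a ha b hb hab
      rcases Finset.mem_insert.mp ha with ha' | ha'
      · exfalso
        rcases Finset.mem_insert.mp hb with hb' | hb'
        · omega
        · have := hy0 b hb'
          omega
      · exact ha'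
    refine ⟨insert y s, by rw [Finset.card_insert_of_notMem hys, hs], ?_, ?_, ?_, ?_⟩
    · intro a ha
      rcases Finset.mem_insert.mp ha with rfl | ha'
      · exact hy
      · exact h1 a ha'
    · intro a ha b hb hab
      have ha' := key a ha b hb hab
      rcases Finset.mem_insert.mp hb with rfl | hb'
      · exact hy1 a ha'
      · exact h2 a ha' b hb' hab
    · intro a ha b hb c hc hab hbc
      have ha' := key a ha b hb hab
      have hb' := key b hb c hc hbc
      rcases Finset.mem_insert.mp hc with rfl | hc'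
      · exact hy2 a ha' b hb' hab
      · exact h3 a ha' b hb' c hc' hab hbc
    · intro a ha b hb c hc d hd hab hbc hcd
      have ha' := key a ha b hb hab
      have hb' := key b hb c hc hbc
      have hc' := key c hc d hd hcd
      rcases Finset.mem_insert.mp hd with rfl | hd'
      · exact hy3 a ha' b hb' c hc' hab hbc
      · exact h4 a ha' b hb' c hc' d hd' hab hbc hcd

/-- A sequence all of whose increasing quadruples are generic. -/
theorem exists_good_seq (R : ℕ → ℕ → ℕ → ℕ → Prop)
    (h : ∀ᶠ a in (hyperfilter ℕ : Filter ℕ), ∀ᶠ b in (hyperfilter ℕ : Filter ℕ),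
      ∀ᶠ c in (hyperfilter ℕ : Filter ℕ), ∀ᶠ d in (hyperfilter ℕ : Filter ℕ), R a b c d)
    (M : ℕ) :
    ∃ x : ℕ → ℕ, (∀ i j, i < j → j < M → x i < x j) ∧
      ∀ i j k l, i < j → j < k → k < l → l < M → R (x i) (x j) (x k) (x l) := by
  obtain ⟨s, hs, -, -, -, h4⟩ := exists_good_finset R h M
  let f := s.orderEmbOfFin hs
  refine ⟨fun i => if hi : i < M then f ⟨i, hi⟩ else 0, ?_, ?_⟩
  · intro i j hij hj
    have hi : i < M := hij.trans hj
    simp only [hi, hj, dif_pos]
    exact f.strictMono hij
  · intro i j k l hij hjk hkl hl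
    have hk : k < M := hkl.trans hl
    have hj : j < M := hjk.trans hk
    have hi : i < M := hij.trans hj
    simp only [hi, hj, hk, hl, dif_pos]
    exact h4 _ (Finset.orderEmbOfFin_mem _ _ _) _ (Finset.orderEmbOfFin_mem _ _ _) _
      (Finset.orderEmbOfFin_mem _ _ _) _ (Finset.orderEmbOfFin_mem _ _ _)
      (f.strictMono hij) (f.strictMono hjk) (f.strictMono hkl)

/-- Every 4-ary relation is generically true or generically false. -/
theorem generic_or (R : ℕ → ℕ → ℕ → ℕ → Prop) :
    ∃ τ : Prop, ∀ᶠ a in (hyperfilter ℕ : Filter ℕ), ∀ᶠ b in (hyperfilter ℕ : Filter ℕ),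
      ∀ᶠ c in (hyperfilter ℕ : Filter ℕ), ∀ᶠ d in (hyperfilter ℕ : Filter ℕ),
        (R a b c d ↔ τ) := by
  by_cases h : ∀ᶠ a in (hyperfilter ℕ : Filter ℕ), ∀ᶠ b in (hyperfilter ℕ : Filter ℕ),
      ∀ᶠ c in (hyperfilter ℕ : Filter ℕ), ∀ᶠ d in (hyperfilter ℕ : Filter ℕ), R a b c d
  · exact ⟨True, by simpa using h⟩
  · refine ⟨False, ?_⟩
    simp only [iff_false]
    simp only [Ultrafilter.eventually_not]
    exact h

/-- The uniformity facts for a symmetric edge labelling along a sequence of length `M`. -/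
structure Uniform {α : Type} [LinearOrder α] (S : ℕ → ℕ → α) (M : ℕ) : Prop where
  f : (∀ i j k, i < j → j < k → k < M → S i j < S j k) ∨
      (∀ i j k, i < j → j < k → k < M → S j k < S i j)
  q : (∀ i j k, i < j → j < k → k < M → S i k < S j k) ∨
      (∀ i j k, i < j → j < k → k < M → S j k < S i k)
  p : (∀ i j k, i < j → j < k → k < M → S i j < S i k) ∨
      (∀ i j k, i < j → j < k → k < M → S i k < S i j)
  r : (∀ i j k l, i < j → j < k → k < l → l < M → S i k < S j l) ∨
      (∀ i j k l, i < j → j < k → k < l → l < M → S j l < S i k)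

theorem exists_uniform {α : Type} [LinearOrder α] (E : ℕ → ℕ → α)
    (hE : ∀ a b c d, a ≠ b → c ≠ d → E a b = E c d → (a = c ∧ b = d) ∨ (a = d ∧ b = c)) (M : ℕ) :
    ∃ x : ℕ → ℕ, (∀ i j, i < j → j < M → x i < x j) ∧ Uniform (fun i j => E (x i) (x j)) M := by
  obtain ⟨τ₁, h₁⟩ := generic_or (fun a b c _ => E a b < E b c)
  obtain ⟨τ₂, h₂⟩ := generic_or (fun a b c _ => E a c < E b c)
  obtain ⟨τ₃, h₃⟩ := generic_or (fun a b c _ => E a b < E a c)
  obtain ⟨τ₄, h₄⟩ := generic_or (fun a b c d => E a c < E b d)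
  have h : ∀ᶠ a in (hyperfilter ℕ : Filter ℕ), ∀ᶠ b in (hyperfilter ℕ : Filter ℕ),
      ∀ᶠ c in (hyperfilter ℕ : Filter ℕ), ∀ᶠ d in (hyperfilter ℕ : Filter ℕ),
        ((E a b < E b c ↔ τ₁) ∧ (E a c < E b c ↔ τ₂) ∧ (E a b < E a c ↔ τ₃) ∧
          (E a c < E b d ↔ τ₄)) := by
    filter_upwards [h₁, h₂, h₃, h₄] with a g₁ g₂ g₃ g₄
    filter_upwards [g₁, g₂, g₃, g₄] with b g₁ g₂ g₃ g₄
    filter_upwards [g₁, g₂, g₃, g₄] with c g₁ g₂ g₃ g₄
    filter_upwards [g₁, g₂, g₃, g₄] with d g₁ g₂ g₃ g₄
    exact ⟨g₁, g₂, g₃, g₄⟩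
  obtain ⟨x, hx, hR⟩ := exists_good_seq _ h (M + 1)
  refine ⟨x, fun i j hij hj => hx i j hij (by omega), ?_⟩
  have hne : ∀ i j, i < j → j < M → x i ≠ x j := fun i j hij hj => (hx i j hij (by omega)).ne
  constructor
  · by_cases hτ : τ₁
    · left
      intro i j k hij hjk hk
      exact ((hR i j k M hij hjk hk (by omega)).1).mpr hτ
    · right
      intro i j k hij hjk hk
      have h1 := mt ((hR i j k M hij hjk hk (by omega)).1).mp hτ
      refine lt_of_le_of_ne (not_lt.mp h1) fun h2 => ?_
      have n1 := hne i j hij (by omega)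
      have n2 := hne j k hjk (by omega)
      have n3 := hne i k (by omega) (by omega)
      rcases hE _ _ _ _ n2 n1 h2 with h3 | h3
      · exact n1 h3.1.symm
      · exact n3 h3.2.symm
  · by_cases hτ : τ₂
    · left
      intro i j k hij hjk hk
      exact ((hR i j k M hij hjk hk (by omega)).2.1).mpr hτ
    · right
      intro i j k hij hjk hk
      have h1 := mt ((hR i j k M hij hjk hk (by omega)).2.1).mp hτ
      refine lt_of_le_of_ne (not_lt.mp h1) fun h2 => ?_
      have n1 := hne i j hij (by omega)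
      have n2 := hne j k hjk (by omega)
      have n3 := hne i k (by omega) (by omega)
      rcases hE _ _ _ _ n2 n3 h2 with h3 | h3
      · exact n1 h3.1.symm
      · exact n3 h3.2.symm
  · by_cases hτ : τ₃
    · left
      intro i j k hij hjk hk
      exact ((hR i j k M hij hjk hk (by omega)).2.2.1).mpr hτ
    · right
      intro i j k hij hjk hk
      have h1 := mt ((hR i j k M hij hjk hk (by omega)).2.2.1).mp hτ
      refine lt_of_le_of_ne (not_lt.mp h1) fun h2 => ?_
      have n1 := hne i j hij (by omega)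
      have n2 := hne j k hjk (by omega)
      have n3 := hne i k (by omega) (by omega)
      rcases hE _ _ _ _ n3 n1 h2 with h3 | h3
      · exact n2 h3.2.symm
      · exact n1 h3.1
  · by_cases hτ : τ₄
    · left
      intro i j k l hij hjk hkl hl
      exact ((hR i j k l hij hjk hkl (by omega)).2.2.2).mpr hτ
    · right
      intro i j k l hij hjk hkl hl
      have h1 := mt ((hR i j k l hij hjk hkl (by omega)).2.2.2).mp hτ
      refine lt_of_le_of_ne (not_lt.mp h1) fun h2 => ?_
      have n1 := hne i j hij (by omega)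
      have n2 := hne j k hjk (by omega)
      have n3 := hne i k (by omega) (by omega)
      have n4 := hne j l (by omega) (by omega)
      rcases hE _ _ _ _ n4 n3 h2 with h3 | h3
      · exact n1 h3.1.symm
      · exact n2 h3.1

/-- Uniformity is preserved by reversing the sequence. -/
theorem Uniform.reverse {α : Type} [LinearOrder α] {S : ℕ → ℕ → α} {M : ℕ} (h : Uniform S M)
    (hS : ∀ i j, S i j = S j i) :
    Uniform (fun i j => S (M - 1 - i) (M - 1 - j)) M := by
  constructor
  · rcases h.f with h | h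
    · right
      intro i j k hij hjk hk
      have := h (M - 1 - k) (M - 1 - j) (M - 1 - i) (by omega) (by omega) (by omega)
      rw [hS (M - 1 - j) (M - 1 - k), hS (M - 1 - i) (M - 1 - j)]
      exact this
    · left
      intro i j k hij hjk hk
      have := h (M - 1 - k) (M - 1 - j) (M - 1 - i) (by omega) (by omega) (by omega)
      rw [hS (M - 1 - j) (M - 1 - k), hS (M - 1 - i) (M - 1 - j)]
      exact this
  · rcases h.p with h | h
    · right
      intro i j k hij hjk hk
      have := h (M - 1 - k) (M - 1 - j) (M - 1 - i) (by omega) (by omega) (by omega)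
      rw [hS (M - 1 - j) (M - 1 - k), hS (M - 1 - i) (M - 1 - k)]
      exact this
    · left
      intro i j k hij hjk hk
      have := h (M - 1 - k) (M - 1 - j) (M - 1 - i) (by omega) (by omega) (by omega)
      rw [hS (M - 1 - j) (M - 1 - k), hS (M - 1 - i) (M - 1 - k)]
      exact this
  · rcases h.q with h | h
    · right
      intro i j k hij hjk hk
      have := h (M - 1 - k) (M - 1 - j) (M - 1 - i) (by omega) (by omega) (by omega)
      rw [hS (M - 1 - i) (M - 1 - k), hS (M - 1 - i) (M - 1 - j)]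
      exact this
    · left
      intro i j k hij hjk hk
      have := h (M - 1 - k) (M - 1 - j) (M - 1 - i) (by omega) (by omega) (by omega)
      rw [hS (M - 1 - i) (M - 1 - k), hS (M - 1 - i) (M - 1 - j)]
      exact this
  · rcases h.r with h | h
    · right
      intro i j k l hij hjk hkl hl
      have := h (M - 1 - l) (M - 1 - k) (M - 1 - j) (M - 1 - i) (by omega) (by omega) (by omega)
        (by omega)
      rw [hS (M - 1 - j) (M - 1 - l), hS (M - 1 - i) (M - 1 - k)]
      exact this
    · left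
      intro i j k l hij hjk hkl hl
      have := h (M - 1 - l) (M - 1 - k) (M - 1 - j) (M - 1 - i) (by omega) (by omega) (by omega)
        (by omega)
      rw [hS (M - 1 - j) (M - 1 - l), hS (M - 1 - i) (M - 1 - k)]
      exact this

/-- Uniform sequences with increasing consecutive edges. -/
theorem exists_uniform' {α : Type} [LinearOrder α] (E : ℕ → ℕ → α) (hsymm : ∀ a b, E a b = E b a)
    (hE : ∀ a b c d, a ≠ b → c ≠ d → E a b = E c d → (a = c ∧ b = d) ∨ (a = d ∧ b = c)) (M : ℕ) :
    ∃ x : ℕ → ℕ, (∀ i j, i < j → j < M → x i ≠ x j) ∧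
      Uniform (fun i j => E (x i) (x j)) M ∧
      (∀ i j k, i < j → j < k → k < M → E (x i) (x j) < E (x j) (x k)) := by
  obtain ⟨x, hx, hU⟩ := exists_uniform E hE M
  rcases hU.f with h | h
  · exact ⟨x, fun i j hij hj => (hx i j hij hj).ne, hU, h⟩
  · refine ⟨fun i => x (M - 1 - i), fun i j hij hj => ?_, ?_, ?_⟩
    · exact (hx (M - 1 - j) (M - 1 - i) (by omega) (by omega)).ne'
    · exact hU.reverse (fun i j => hsymm _ _)
    · intro i j k hij hjk hk
      have := h (M - 1 - k) (M - 1 - j) (M - 1 - i) (by omega) (by omega) (by omega)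
      rw [hsymm (x (M - 1 - j)) (x (M - 1 - k)), hsymm (x (M - 1 - i)) (x (M - 1 - j))]
      exact this

/-! ### The labelled path -/

/-- The label of the edge `{p, p + 1}` of the path on `2 t + 4` vertices. -/
def lab (t p : ℕ) : ℕ :=
  if p < t then 2 * p else if p = t then 2 * t + 2 else if p = t + 1 then 2 * t + 1
  else if p = t + 2 then 2 * t else 2 * (2 * t + 2 - p) + 1

theorem lab_inj (t p q : ℕ) (hp : p < 2 * t + 3) (hq : q < 2 * t + 3) (h : lab t p = lab t q) :
    p = q := by
  unfold lab at h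
  split_ifs at h <;> omega

theorem lab_lt (t p : ℕ) : p < 2 * t + 3 → lab t p < 2 * t + 3 := by
  intro hp
  unfold lab
  split_ifs <;> omega

/-- Where the path is placed in the uniform sequence. -/
def pos (t vt z₁ z₂ wt p : ℕ) : ℕ :=
  if p < t then 2 * p else if p = t then vt else if p = t + 1 then z₁
  else if p = t + 2 then z₂ else if p = t + 3 then wt else 2 * (2 * t + 3 - p) + 1

/-- The chain of edges in increasing order. -/
def chain {α : Type} (S : ℕ → ℕ → α) (t vt z₁ z₂ wt l : ℕ) : α :=
  if l + 2 < 2 * t then S l (l + 2) else if l = 2 * t - 2 then S (2 * t - 2) vt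
  else if l = 2 * t - 1 then S (2 * t - 1) wt else if l = 2 * t then S wt z₂
  else if l = 2 * t + 1 then S z₂ z₁ else S z₁ vt

theorem chain_eq {α : Type} (S : ℕ → ℕ → α) (hS : ∀ i j, S i j = S j i)
    (t vt z₁ z₂ wt p : ℕ) (ht : 2 ≤ t) (hp : p < 2 * t + 3) :
    S (pos t vt z₁ z₂ wt p) (pos t vt z₁ z₂ wt (p + 1)) = chain S t vt z₁ z₂ wt (lab t p) := by
  have hcases : p + 1 < t ∨ p + 1 = t ∨ p = t ∨ p = t + 1 ∨ p = t + 2 ∨ p = t + 3 ∨ t + 3 < p := by
    omega
  rcases hcases with h | h | h | h | h | h | h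
  · have h1 : pos t vt z₁ z₂ wt p = 2 * p := by unfold pos; rw [if_pos (by omega)]
    have h2 : pos t vt z₁ z₂ wt (p + 1) = 2 * p + 2 := by
      unfold pos; rw [if_pos (by omega)]; ring
    have h3 : lab t p = 2 * p := by unfold lab; rw [if_pos (by omega)]
    rw [h1, h2, h3, chain, if_pos (by omega)]
  · have h1 : pos t vt z₁ z₂ wt p = 2 * t - 2 := by unfold pos; rw [if_pos (by omega)]; omega
    have h2 : pos t vt z₁ z₂ wt (p + 1) = vt := by
      unfold pos; rw [if_neg (by omega), if_pos (by omega)]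
    have h3 : lab t p = 2 * t - 2 := by unfold lab; rw [if_pos (by omega)]; omega
    rw [h1, h2, h3, chain, if_neg (by omega), if_pos rfl]
  · subst h
    have h1 : pos p vt z₁ z₂ wt p = vt := by
      unfold pos; rw [if_neg (by omega), if_pos (by omega)]
    have h2 : pos p vt z₁ z₂ wt (p + 1) = z₁ := by
      unfold pos; rw [if_neg (by omega), if_neg (by omega), if_pos (by omega)]
    have h3 : lab p p = 2 * p + 2 := by
      unfold lab; rw [if_neg (by omega), if_pos (by omega)]
    rw [h1, h2, h3, chain, if_neg (by omega), if_neg (by omega), if_neg (by omega),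
      if_neg (by omega), if_neg (by omega), hS]
  · subst h
    have h1 : pos t vt z₁ z₂ wt (t + 1) = z₁ := by
      unfold pos; rw [if_neg (by omega), if_neg (by omega), if_pos (by omega)]
    have h2 : pos t vt z₁ z₂ wt (t + 1 + 1) = z₂ := by
      unfold pos
      rw [if_neg (by omega), if_neg (by omega), if_neg (by omega), if_pos (by omega)]
    have h3 : lab t (t + 1) = 2 * t + 1 := by
      unfold lab; rw [if_neg (by omega), if_neg (by omega), if_pos (by omega)]
    rw [h1, h2, h3, chain, if_neg (by omega), if_neg (by omega), if_neg (by omega),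
      if_neg (by omega), if_pos rfl, hS]
  · subst h
    have h1 : pos t vt z₁ z₂ wt (t + 2) = z₂ := by
      unfold pos
      rw [if_neg (by omega), if_neg (by omega), if_neg (by omega), if_pos (by omega)]
    have h2 : pos t vt z₁ z₂ wt (t + 2 + 1) = wt := by
      unfold pos
      rw [if_neg (by omega), if_neg (by omega), if_neg (by omega), if_neg (by omega),
        if_pos (by omega)]
    have h3 : lab t (t + 2) = 2 * t := by
      unfold lab
      rw [if_neg (by omega), if_neg (by omega), if_neg (by omega), if_pos (by omega)]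
    rw [h1, h2, h3, chain, if_neg (by omega), if_neg (by omega), if_neg (by omega),
      if_pos rfl, hS]
  · subst h
    have h1 : pos t vt z₁ z₂ wt (t + 3) = wt := by
      unfold pos
      rw [if_neg (by omega), if_neg (by omega), if_neg (by omega), if_neg (by omega),
        if_pos (by omega)]
    have h2 : pos t vt z₁ z₂ wt (t + 3 + 1) = 2 * t - 1 := by
      unfold pos
      rw [if_neg (by omega), if_neg (by omega), if_neg (by omega), if_neg (by omega),
        if_neg (by omega)]
      omega
    have h3 : lab t (t + 3) = 2 * t - 1 := by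
      unfold lab
      rw [if_neg (by omega), if_neg (by omega), if_neg (by omega), if_neg (by omega)]
      omega
    rw [h1, h2, h3, chain, if_neg (by omega), if_neg (by omega), if_pos rfl, hS]
  · obtain ⟨l, hl⟩ : ∃ l, 2 * t + 2 - p = l := ⟨_, rfl⟩
    have h1 : pos t vt z₁ z₂ wt p = 2 * l + 1 + 2 := by
      unfold pos
      rw [if_neg (by omega), if_neg (by omega), if_neg (by omega), if_neg (by omega),
        if_neg (by omega)]
      omega
    have h2 : pos t vt z₁ z₂ wt (p + 1) = 2 * l + 1 := by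
      unfold pos
      rw [if_neg (by omega), if_neg (by omega), if_neg (by omega), if_neg (by omega),
        if_neg (by omega)]
      omega
    have h3 : lab t p = 2 * l + 1 := by
      unfold lab
      rw [if_neg (by omega), if_neg (by omega), if_neg (by omega), if_neg (by omega)]
      omega
    rw [h1, h2, h3, chain, if_pos (by omega), hS]

theorem chain_lt {α : Type} [LinearOrder α] (S : ℕ → ℕ → α)
    (t vt z₁ z₂ wt : ℕ) (ht : 2 ≤ t)
    (hr : ∀ i j k l, i < j → j < k → k < l → l < 2 * t + 4 → S i k < S j l)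
    (hvt : 2 * t ≤ vt) (hvt' : vt < 2 * t + 4)
    (h1 : S (2 * t - 2) vt < S (2 * t - 1) wt)
    (h2 : S (2 * t - 1) wt < S wt z₂)
    (h3 : S wt z₂ < S z₂ z₁)
    (h4 : S z₂ z₁ < S z₁ vt) (l : ℕ) (hl : l < 2 * t + 2) :
    chain S t vt z₁ z₂ wt l < chain S t vt z₁ z₂ wt (l + 1) := by
  have hcases : l + 3 < 2 * t ∨ l + 3 = 2 * t ∨ l = 2 * t - 2 ∨ l = 2 * t - 1 ∨ l = 2 * t ∨
      l = 2 * t + 1 := by omega
  rcases hcases with h | h | h | h | h | h
  · rw [chain, chain, if_pos (by omega), if_pos (by omega)]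
    exact hr l (l + 1) (l + 2) (l + 1 + 2) (by omega) (by omega) (by omega) (by omega)
  · rw [chain, chain, if_pos (by omega), if_neg (by omega), if_pos (by omega)]
    exact hr l (2 * t - 2) (l + 2) vt (by omega) (by omega) (by omega) (by omega)
  · rw [chain, chain, if_neg (by omega), if_pos (by omega), if_neg (by omega), if_neg (by omega),
      if_pos (by omega)]
    exact h1
  · rw [chain, chain, if_neg (by omega), if_neg (by omega), if_pos (by omega), if_neg (by omega),
      if_neg (by omega), if_neg (by omega), if_pos (by omega)]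
    exact h2
  · rw [chain, chain, if_neg (by omega), if_neg (by omega), if_neg (by omega), if_pos (by omega),
      if_neg (by omega), if_neg (by omega), if_neg (by omega), if_neg (by omega),
      if_pos (by omega)]
    exact h3
  · rw [chain, chain, if_neg (by omega), if_neg (by omega), if_neg (by omega), if_neg (by omega),
      if_pos (by omega), if_neg (by omega), if_neg (by omega), if_neg (by omega),
      if_neg (by omega), if_neg (by omega)]
    exact h4

theorem chain_strictMono {α : Type} [LinearOrder α] (T : ℕ → α) (m : ℕ)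
    (h : ∀ l, l < m → T l < T (l + 1)) (i j : ℕ) (hij : i < j) (hj : j ≤ m) : T i < T j := by
  induction j with
  | zero => omega
  | succ j ih =>
    rcases Nat.lt_succ_iff_lt_or_eq.mp hij with h1 | h1
    · exact (ih h1 (by omega)).trans (h j (by omega))
    · subst h1
      exact h i (by omega)

/-- A uniform sequence of length `2 t + 4` carries a copy of the labelled path. -/
theorem exists_pos {α : Type} [LinearOrder α] (S : ℕ → ℕ → α) (hS : ∀ i j, S i j = S j i)
    (t : ℕ) (ht : 2 ≤ t) (hU : Uniform S (2 * t + 4))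
    (hf : ∀ i j k, i < j → j < k → k < 2 * t + 4 → S i j < S j k) :
    ∃ g : ℕ → ℕ, (∀ p, p < 2 * t + 4 → g p < 2 * t + 4) ∧
      (∀ p q, p < 2 * t + 4 → q < 2 * t + 4 → g p = g q → p = q) ∧
      ∀ p q, p < 2 * t + 3 → q < 2 * t + 3 → lab t p < lab t q →
        S (g p) (g (p + 1)) < S (g q) (g (q + 1)) := by
  have hr : ∀ i j k l, i < j → j < k → k < l → l < 2 * t + 4 → S i k < S j l := by
    rcases hU.r with h | h
    · exact h
    · exfalso
      have a1 := h 0 1 2 3 (by omega) (by omega) (by omega) (by omega)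
      have a2 := h 1 2 3 4 (by omega) (by omega) (by omega) (by omega)
      have a3 := hf 0 2 4 (by omega) (by omega) (by omega)
      exact lt_irrefl _ (a3.trans (a2.trans a1))
  have main : ∀ vt z₁ z₂ wt : ℕ, 2 * t ≤ vt → vt < 2 * t + 4 → 2 * t ≤ z₁ → z₁ < 2 * t + 4 →
      2 * t ≤ z₂ → z₂ < 2 * t + 4 → 2 * t ≤ wt → wt < 2 * t + 4 →
      vt ≠ z₁ → vt ≠ z₂ → vt ≠ wt → z₁ ≠ z₂ → z₁ ≠ wt → z₂ ≠ wt →
      S (2 * t - 2) vt < S (2 * t - 1) wt → S (2 * t - 1) wt < S wt z₂ →
      S wt z₂ < S z₂ z₁ → S z₂ z₁ < S z₁ vt →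
      ∃ g : ℕ → ℕ, (∀ p, p < 2 * t + 4 → g p < 2 * t + 4) ∧
      (∀ p q, p < 2 * t + 4 → q < 2 * t + 4 → g p = g q → p = q) ∧
      ∀ p q, p < 2 * t + 3 → q < 2 * t + 3 → lab t p < lab t q →
        S (g p) (g (p + 1)) < S (g q) (g (q + 1)) := by
    intro vt z₁ z₂ wt b1 b2 b3 b4 b5 b6 b7 b8 c1 c2 c3 c4 c5 c6 h1 h2 h3 h4
    refine ⟨pos t vt z₁ z₂ wt, ?_, ?_, ?_⟩
    · intro p hp
      unfold pos
      split_ifs <;> omega
    · intro p q hp hq h
      unfold pos at h
      split_ifs at h <;> omega
    · intro p q hp hq h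
      rw [chain_eq S hS t vt z₁ z₂ wt p ht hp, chain_eq S hS t vt z₁ z₂ wt q ht hq]
      refine chain_strictMono _ (2 * t + 2) ?_ _ _ h ?_
      · intro l hl
        exact chain_lt S t vt z₁ z₂ wt ht hr b1 b2 h1 h2 h3 h4 l hl
      · have := lab_lt t q hq
        omega
  rcases hU.q with hq | hq
  · rcases hU.p with hp | hp
    · -- `z₂ < vt < wt < z₁`
      refine main (2 * t + 1) (2 * t + 3) (2 * t) (2 * t + 2) (by omega) (by omega) (by omega)
        (by omega) (by omega) (by omega) (by omega) (by omega) (by omega) (by omega) (by omega)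
        (by omega) (by omega) (by omega) ?_ ?_ ?_ ?_
      · exact hr (2 * t - 2) (2 * t - 1) (2 * t + 1) (2 * t + 2) (by omega) (by omega) (by omega)
          (by omega)
      · rw [hS (2 * t + 2) (2 * t)]
        exact hq (2 * t - 1) (2 * t) (2 * t + 2) (by omega) (by omega) (by omega)
      · rw [hS (2 * t + 2) (2 * t)]
        exact hp (2 * t) (2 * t + 2) (2 * t + 3) (by omega) (by omega) (by omega)
      · rw [hS (2 * t + 3) (2 * t + 1)]
        exact hq (2 * t) (2 * t + 1) (2 * t + 3) (by omega) (by omega) (by omega)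
    · -- `wt < z₂ < z₁ < vt`
      refine main (2 * t + 3) (2 * t + 2) (2 * t + 1) (2 * t) (by omega) (by omega) (by omega)
        (by omega) (by omega) (by omega) (by omega) (by omega) (by omega) (by omega) (by omega)
        (by omega) (by omega) (by omega) ?_ ?_ ?_ ?_
      · have h1 := hp (2 * t - 2) (2 * t) (2 * t + 3) (by omega) (by omega) (by omega)
        have h2 := hq (2 * t - 2) (2 * t - 1) (2 * t) (by omega) (by omega) (by omega)
        exact h1.trans h2
      · exact hf _ _ _ (by omega) (by omega) (by omega)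
      · exact hf _ _ _ (by omega) (by omega) (by omega)
      · exact hf _ _ _ (by omega) (by omega) (by omega)
  · -- `vt < wt < z₂ < z₁`
    refine main (2 * t) (2 * t + 3) (2 * t + 2) (2 * t + 1) (by omega) (by omega) (by omega)
        (by omega) (by omega) (by omega) (by omega) (by omega) (by omega) (by omega) (by omega)
        (by omega) (by omega) (by omega) ?_ ?_ ?_ ?_
    · exact hr (2 * t - 2) (2 * t - 1) (2 * t) (2 * t + 1) (by omega) (by omega) (by omega)
          (by omega)
    · exact hf _ _ _ (by omega) (by omega) (by omega)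
    · exact hf _ _ _ (by omega) (by omega) (by omega)
    · rw [hS (2 * t + 3) (2 * t)]
      exact hq (2 * t) (2 * t + 2) (2 * t + 3) (by omega) (by omega) (by omega)

theorem exists_idx {k : ℕ} (e : (SimpleGraph.pathGraph k).edgeSet) :
    ∃ p : ℕ, ∃ hp : p + 1 < k, (e : Sym2 (Fin k)) = s(⟨p, by omega⟩, ⟨p + 1, hp⟩) := by
  obtain ⟨e, he⟩ := e
  induction e using Sym2.ind with
  | _ a b =>
    rw [SimpleGraph.mem_edgeSet, SimpleGraph.pathGraph_adj] at he
    rcases he with h | h
    · refine ⟨a.val, by omega, ?_⟩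
      have hb : b = ⟨a.val + 1, by omega⟩ := Fin.ext h.symm
      exact congrArg (fun z => s(a, z)) hb
    · refine ⟨b.val, by omega, ?_⟩
      have ha : a = ⟨b.val + 1, by omega⟩ := Fin.ext h.symm
      exact (congrArg (fun z => s(z, b)) ha).trans Sym2.eq_swap

/-- The position of an edge of the path. -/
noncomputable def idx {k : ℕ} (e : (SimpleGraph.pathGraph k).edgeSet) : ℕ := (exists_idx e).choose

theorem idx_lt {k : ℕ} (e : (SimpleGraph.pathGraph k).edgeSet) : idx e + 1 < k :=
  (exists_idx e).choose_spec.choose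

theorem idx_eq {k : ℕ} (e : (SimpleGraph.pathGraph k).edgeSet) :
    (e : Sym2 (Fin k)) = s(⟨idx e, by have := idx_lt e; omega⟩, ⟨idx e + 1, idx_lt e⟩) :=
  (exists_idx e).choose_spec.choose_spec

theorem idx_inj {k : ℕ} (e e' : (SimpleGraph.pathGraph k).edgeSet) (h : idx e = idx e') :
    e = e' := by
  apply Subtype.ext
  rw [idx_eq e, idx_eq e']
  simp only [h]

/-- The edge at a given position. -/
def edgeAt {k : ℕ} (p : ℕ) (hp : p + 1 < k) : (SimpleGraph.pathGraph k).edgeSet :=
  ⟨s(⟨p, by omega⟩, ⟨p + 1, hp⟩), by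
    rw [SimpleGraph.mem_edgeSet, SimpleGraph.pathGraph_adj]
    left
    rfl⟩

theorem idx_edgeAt {k : ℕ} (p : ℕ) (hp : p + 1 < k) : idx (edgeAt p hp) = p := by
  have h := idx_eq (edgeAt p hp)
  unfold edgeAt at h
  simp only at h
  rw [Sym2.eq_iff] at h
  rcases h with h | h
  · have := congrArg Fin.val h.1
    exact this.symm
  · have h1 := congrArg Fin.val h.1
    have h2 := congrArg Fin.val h.2
    simp only at h1 h2
    unfold edgeAt
    omega

/-- The edge ordering of the path on `2 t + 4` vertices. -/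
@[instance_reducible]
noncomputable def pathOrder (t : ℕ) : LinearOrder (SimpleGraph.pathGraph (2 * t + 4)).edgeSet :=
  LinearOrder.lift' (fun e => lab t (idx e)) (by
    intro e e' h
    have h1 := idx_lt e
    have h2 := idx_lt e'
    exact idx_inj e e' (lab_inj t _ _ (by omega) (by omega) h))

theorem pathOrder_lt (t : ℕ) (e e' : (SimpleGraph.pathGraph (2 * t + 4)).edgeSet) :
    (pathOrder t).lt e e' ↔ lab t (idx e) < lab t (idx e') := Iff.rfl

theorem exists_rank {β : Type} [Fintype β] (o : LinearOrder β) :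
    ∃ f : β → ℕ, ∀ e e' : β, o.lt e e' ↔ f e < f e' := by
  let _ := o
  refine ⟨fun e => ((Fintype.orderIsoFinOfCardEq β rfl).symm e : ℕ), fun e e' => ?_⟩
  rw [← Fin.lt_def, OrderIso.lt_iff_lt]

/-- Every edge ordering of a large complete graph contains the labelled path. -/
theorem exists_complete (t : ℕ) (ht : 2 ≤ t) :
    ∃ N : ℕ, ∀ oH : LinearOrder (⊤ : SimpleGraph (Fin N)).edgeSet,
      Contains (SimpleGraph.pathGraph (2 * t + 4)) (pathOrder t) ⊤ oH := by
  by_contra hcon
  push Not at hcon
  choose o ho using hcon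
  classical
  have hf : ∀ N, ∃ f : (⊤ : SimpleGraph (Fin N)).edgeSet → ℕ, ∀ e e', (o N).lt e e' ↔ f e < f e' :=
    fun N => exists_rank (o N)
  choose f hf using hf
  let w : ℕ → ℕ → ℕ → ℕ := fun N a b =>
    if h : a < N ∧ b < N ∧ a ≠ b then
      f N ⟨s(⟨a, h.1⟩, ⟨b, h.2.1⟩), by
        rw [SimpleGraph.mem_edgeSet, SimpleGraph.top_adj]
        intro h'
        exact h.2.2 (congrArg Fin.val h')⟩
    else 0
  have hw : ∀ N a b, w N a b = w N b a := by
    intro N a b
    by_cases h : a < N ∧ b < N ∧ a ≠ b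
    · have h' : b < N ∧ a < N ∧ b ≠ a := ⟨h.2.1, h.1, h.2.2.symm⟩
      simp only [w, dif_pos h, dif_pos h']
      congr 1
      apply Subtype.ext
      exact Sym2.eq_swap
    · have h' : ¬ (b < N ∧ a < N ∧ b ≠ a) := fun h' => h ⟨h'.2.1, h'.1, h'.2.2.symm⟩
      simp only [w, dif_neg h, dif_neg h']
  have hinj : ∀ N a b c d, a < N → b < N → c < N → d < N → a ≠ b → c ≠ d → w N a b = w N c d →
      (a = c ∧ b = d) ∨ (a = d ∧ b = c) := by
    intro N a b c d ha hb hc hd hab hcd h
    simp only [w, dif_pos (show a < N ∧ b < N ∧ a ≠ b from ⟨ha, hb, hab⟩),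
      dif_pos (show c < N ∧ d < N ∧ c ≠ d from ⟨hc, hd, hcd⟩)] at h
    have h2 : (⟨s(⟨a, ha⟩, ⟨b, hb⟩), by
        rw [SimpleGraph.mem_edgeSet, SimpleGraph.top_adj]
        intro h'
        exact hab (congrArg Fin.val h')⟩ : (⊤ : SimpleGraph (Fin N)).edgeSet) =
        ⟨s(⟨c, hc⟩, ⟨d, hd⟩), by
        rw [SimpleGraph.mem_edgeSet, SimpleGraph.top_adj]
        intro h'
        exact hcd (congrArg Fin.val h')⟩ := by
      let _ := o N
      rcases lt_trichotomy (⟨s(⟨a, ha⟩, ⟨b, hb⟩), by
        rw [SimpleGraph.mem_edgeSet, SimpleGraph.top_adj]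
        intro h'
        exact hab (congrArg Fin.val h')⟩ : (⊤ : SimpleGraph (Fin N)).edgeSet)
        ⟨s(⟨c, hc⟩, ⟨d, hd⟩), by
        rw [SimpleGraph.mem_edgeSet, SimpleGraph.top_adj]
        intro h'
        exact hcd (congrArg Fin.val h')⟩ with h3 | h3 | h3
      · have := (hf N _ _).mp h3
        omega
      · exact h3
      · have := (hf N _ _).mp h3
        omega
    have h3 := congrArg Subtype.val h2
    simp only at h3
    rw [Sym2.eq_iff] at h3
    simpa only [Fin.mk.injEq] using h3
  let E : ℕ → ℕ → (hyperfilter ℕ : Filter ℕ).Germ ℕ := fun a b => ((fun N => w N a b : ℕ → ℕ) :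
    (hyperfilter ℕ : Filter ℕ).Germ ℕ)
  have hEs : ∀ a b, E a b = E b a := by
    intro a b
    simp only [E]
    congr 1
    funext N
    exact hw N a b
  have hbig : ∀ a : ℕ, ∀ᶠ N in (hyperfilter ℕ : Filter ℕ), a < N := fun a =>
    Nat.hyperfilter_le_atTop (Filter.eventually_gt_atTop a)
  have hEi : ∀ a b c d, a ≠ b → c ≠ d → E a b = E c d → (a = c ∧ b = d) ∨ (a = d ∧ b = c) := by
    intro a b c d hab hcd h
    have h1 : ∀ᶠ N in (hyperfilter ℕ : Filter ℕ), w N a b = w N c d := Filter.Germ.coe_eq.mp h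
    obtain ⟨N, h1, ha, hb, hc, hd⟩ :=
      (h1.and ((hbig a).and ((hbig b).and ((hbig c).and (hbig d))))).exists
    exact hinj N a b c d ha hb hc hd hab hcd h1
  obtain ⟨x, hx, hU, hfwd⟩ := exists_uniform' E hEs hEi (2 * t + 4)
  obtain ⟨g, hg1, hg2, hg3⟩ := exists_pos (fun i j => E (x i) (x j)) (fun i j => hEs _ _) t ht hU
    hfwd
  have hxinj : ∀ i j, i < 2 * t + 4 → j < 2 * t + 4 → x i = x j → i = j := by
    intro i j hi hj h
    rcases lt_trichotomy i j with h1 | h1 | h1
    · exact absurd h (hx i j h1 hj)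
    · exact h1
    · exact absurd h.symm (hx j i h1 hi)
  -- all the finitely many comparisons hold for a single `N`
  have hev : ∀ᶠ N in (hyperfilter ℕ : Filter ℕ), ∀ p ∈ Finset.range (2 * t + 3),
      ∀ q ∈ Finset.range (2 * t + 3), lab t p < lab t q →
        w N (x (g p)) (x (g (p + 1))) < w N (x (g q)) (x (g (q + 1))) := by
    rw [Filter.eventually_all_finset]
    intro p hp
    rw [Filter.eventually_all_finset]
    intro q hq
    by_cases h : lab t p < lab t q
    · have h1 := hg3 p q (Finset.mem_range.mp hp) (Finset.mem_range.mp hq) h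
      have h2 : ∀ᶠ N in (hyperfilter ℕ : Filter ℕ),
          w N (x (g p)) (x (g (p + 1))) < w N (x (g q)) (x (g (q + 1))) :=
        Filter.Germ.coe_lt.mp h1
      exact h2.mono fun N h3 _ => h3
    · exact Filter.Eventually.of_forall fun N h' => absurd h' h
  have hev2 : ∀ᶠ N in (hyperfilter ℕ : Filter ℕ), ∀ p ∈ Finset.range (2 * t + 4),
      x (g p) < N := by
    rw [Filter.eventually_all_finset]
    intro p _
    exact hbig _
  obtain ⟨N, hN1, hN2⟩ := (hev.and hev2).exists
  apply ho N
  have hlt : ∀ p, p < 2 * t + 4 → x (g p) < N := fun p hp => hN2 p (Finset.mem_range.mpr hp)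
  let φ : SimpleGraph.Copy (SimpleGraph.pathGraph (2 * t + 4)) (⊤ : SimpleGraph (Fin N)) :=
    { toHom :=
        { toFun := fun p => ⟨x (g p.val), hlt p.val p.isLt⟩
          map_rel' := by
            intro a b hab
            rw [SimpleGraph.top_adj]
            intro h
            have h1 : x (g a.val) = x (g b.val) := congrArg Fin.val h
            have h2 := hxinj _ _ (hg1 _ a.isLt) (hg1 _ b.isLt) h1
            have h3 := hg2 _ _ a.isLt b.isLt h2
            exact hab.ne (Fin.ext h3) }
      injective' := by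
        intro a b h
        have h1 : x (g a.val) = x (g b.val) := congrArg Fin.val h
        have h2 := hxinj _ _ (hg1 _ a.isLt) (hg1 _ b.isLt) h1
        exact Fin.ext (hg2 _ _ a.isLt b.isLt h2) }
  refine ⟨φ, ?_⟩
  have hval : ∀ e : (SimpleGraph.pathGraph (2 * t + 4)).edgeSet,
      f N (φ.mapEdgeSet e) = w N (x (g (idx e))) (x (g (idx e + 1))) := by
    intro e
    have h1 := idx_lt e
    have hne : x (g (idx e)) ≠ x (g (idx e + 1)) := by
      intro h
      have h2 := hxinj _ _ (hg1 _ (by omega)) (hg1 _ (by omega)) h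
      have h3 := hg2 _ _ (by omega) (by omega) h2
      omega
    have hc : x (g (idx e)) < N ∧ x (g (idx e + 1)) < N ∧ x (g (idx e)) ≠ x (g (idx e + 1)) :=
      ⟨hlt _ (by omega), hlt _ (by omega), hne⟩
    simp only [w, dif_pos hc]
    congr 1
    apply Subtype.ext
    have h4 : (e : Sym2 (Fin (2 * t + 4))) = s(⟨idx e, by omega⟩, ⟨idx e + 1, idx_lt e⟩) := idx_eq e
    change Sym2.map φ (e : Sym2 (Fin (2 * t + 4))) = _
    rw [h4, Sym2.map_mk]
    rfl
  intro e e' hee
  rw [pathOrder_lt] at hee
  rw [hf N, hval, hval]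
  have h1 := idx_lt e
  have h2 := idx_lt e'
  exact hN1 _ (Finset.mem_range.mpr (by omega)) _ (Finset.mem_range.mpr (by omega)) hee

/-! ### The lower bound -/

/-- Vertices of the two legs, listed alternately from the outside. -/
def legVertex (t l : ℕ) : Fin (2 * t + 4) :=
  ⟨min (if l % 2 = 0 then l / 2 else 2 * t + 3 - l / 2) (2 * t + 3), by omega⟩

theorem legVertex_inj (t i j : ℕ) (hi : i < 2 * t + 2) (hj : j < 2 * t + 2)
    (h : legVertex t i = legVertex t j) : i = j := by
  have h1 := congrArg Fin.val h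
  unfold legVertex at h1
  simp only at h1
  split_ifs at h1 <;> omega

theorem exists_legEdge (t l : ℕ) (hl : l < 2 * t) :
    ∃ e : (SimpleGraph.pathGraph (2 * t + 4)).edgeSet, lab t (idx e) = l ∧
      (e : Sym2 (Fin (2 * t + 4))) = s(legVertex t l, legVertex t (l + 2)) := by
  rcases Nat.even_or_odd' l with ⟨c, hc | hc⟩
  · refine ⟨edgeAt c (by omega), ?_, ?_⟩
    · rw [idx_edgeAt, lab, if_pos (by omega), hc]
    · have h1 : legVertex t l = ⟨c, by omega⟩ := by
        apply Fin.ext
        unfold legVertex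
        simp only
        rw [if_pos (by omega)]
        omega
      have h2 : legVertex t (l + 2) = ⟨c + 1, by omega⟩ := by
        apply Fin.ext
        unfold legVertex
        simp only
        rw [if_pos (by omega)]
        omega
      rw [h1, h2]
      rfl
  · refine ⟨edgeAt (2 * t + 2 - c) (by omega), ?_, ?_⟩
    · rw [idx_edgeAt, lab, if_neg (by omega), if_neg (by omega), if_neg (by omega),
        if_neg (by omega), hc]
      omega
    · have h1 : legVertex t l = ⟨2 * t + 2 - c + 1, by omega⟩ := by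
        apply Fin.ext
        unfold legVertex
        simp only
        rw [if_neg (by omega)]
        omega
      have h2 : legVertex t (l + 2) = ⟨2 * t + 2 - c, by omega⟩ := by
        apply Fin.ext
        unfold legVertex
        simp only
        rw [if_neg (by omega)]
        omega
      rw [h1, h2]
      exact Sym2.eq_swap

theorem exists_bad_order {N n t : ℕ} (H : SimpleGraph (Fin N)) (hc : H.Colorable (2 ^ n))
    (ht : 2 * n + 1 ≤ t) :
    ∃ oH : LinearOrder H.edgeSet,
      ¬ Contains (SimpleGraph.pathGraph (2 * t + 4)) (pathOrder t) H oH := by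
  classical
  let C : H.Coloring (Fin n → Bool) := hc.toColoring (by simp)
  have hex : ∀ e : H.edgeSet, ∃ (l : Fin n) (a b : Fin N), (e : Sym2 (Fin N)) = s(a, b) ∧
      C a l = false ∧ C b l = true := by
    rintro ⟨e, he⟩
    induction e using Sym2.ind with
    | _ a b =>
      rw [SimpleGraph.mem_edgeSet] at he
      have h1 : C a ≠ C b := C.valid he
      obtain ⟨l, hl⟩ := Function.ne_iff.mp h1
      cases ha : C a l with
      | false =>
        cases hb : C b l with
        | false => rw [ha, hb] at hl; exact absurd rfl hl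
        | true => exact ⟨l, a, b, rfl, ha, hb⟩
      | true =>
        cases hb : C b l with
        | false => exact ⟨l, b, a, Sym2.eq_swap, hb, ha⟩
        | true => rw [ha, hb] at hl; exact absurd rfl hl
  choose lev lo hi heq hlo hhi using hex
  let key : H.edgeSet → Fin n ×ₗ (Fin N ×ₗ Fin N) := fun e => toLex (lev e, toLex (lo e, hi e))
  have hkey : Function.Injective key := by
    intro e e' h
    have h1 : lo e = lo e' := congrArg (fun z => (ofLex (ofLex z).2).1) h
    have h2 : hi e = hi e' := congrArg (fun z => (ofLex (ofLex z).2).2) h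
    apply Subtype.ext
    rw [heq e, heq e', h1, h2]
  refine ⟨LinearOrder.lift' key hkey, ?_⟩
  rintro ⟨φ, hφ⟩
  have hφ' : ∀ e e' : (SimpleGraph.pathGraph (2 * t + 4)).edgeSet,
      lab t (idx e) < lab t (idx e') → key (φ.mapEdgeSet e) < key (φ.mapEdgeSet e') := hφ
  have hne : Nonempty (SimpleGraph.pathGraph (2 * t + 4)).edgeSet := ⟨edgeAt 0 (by omega)⟩
  choose! e he1 he2 using exists_legEdge t
  -- levels, lower and upper ends of the images of the leg edges
  let E : ℕ → H.edgeSet := fun l => φ.mapEdgeSet (e l)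
  let Y : ℕ → Fin N := fun l => φ (legVertex t l)
  have hE : ∀ l, l < 2 * t → (E l : Sym2 (Fin N)) = s(Y l, Y (l + 2)) := by
    intro l hl
    change Sym2.map φ (e l : Sym2 (Fin (2 * t + 4))) = _
    rw [he2 l hl, Sym2.map_mk]
  have hY : ∀ i j, i < 2 * t + 2 → j < 2 * t + 2 → Y i = Y j → i = j := by
    intro i j hi' hj' h
    exact legVertex_inj t i j hi' hj' (φ.injective h)
  have hlt : ∀ i j, i < j → j < 2 * t → key (E i) < key (E j) := by
    intro i j hij hj
    apply hφ'
    rw [he1 i (by omega), he1 j hj]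
    exact hij
  have hlev : ∀ i j, i ≤ j → j < 2 * t → lev (E i) ≤ lev (E j) := by
    intro i j hij hj
    rcases Nat.lt_or_eq_of_le hij with h | h
    · have h1 := hlt i j h hj
      rw [Prod.Lex.toLex_lt_toLex] at h1
      rcases h1 with h1 | h1
      · exact h1.le
      · exact h1.1.le
    · subst h
      exact le_rfl
  have hlo' : ∀ i j, i < j → j < 2 * t → lev (E i) = lev (E j) → lo (E i) ≤ lo (E j) := by
    intro i j hij hj h
    have h1 := hlt i j hij hj
    rw [Prod.Lex.toLex_lt_toLex] at h1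
    rcases h1 with h1 | h1
    · exact absurd h1 (by rw [h]; exact lt_irrefl _)
    · have h2 := h1.2
      simp only at h2
      rw [Prod.Lex.toLex_lt_toLex] at h2
      rcases h2 with h2 | h2
      · exact h2.le
      · exact h2.1.le
  -- the lower end of the image of a leg edge
  have hend : ∀ l, l < 2 * t → lo (E l) = Y l ∨ lo (E l) = Y (l + 2) := by
    intro l hl
    have h1 := heq (E l)
    rw [hE l hl, Sym2.eq_iff] at h1
    rcases h1 with h1 | h1
    · left; exact h1.1.symm
    · right; exact h1.2.symm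
  have hlow : ∀ l i, l < 2 * t → (i = l ∨ i = l + 2) → C (Y i) (lev (E l)) = false →
      lo (E l) = Y i := by
    intro l i hl hi' hC
    have h1 := heq (E l)
    rw [hE l hl, Sym2.eq_iff] at h1
    have h2 := hhi (E l)
    rcases hi' with rfl | rfl
    · rcases h1 with h1 | h1
      · exact h1.1.symm
      · rw [← h1.1, hC] at h2
        exact absurd h2 (by decide)
    · rcases h1 with h1 | h1
      · rw [← h1.2, hC] at h2
        exact absurd h2 (by decide)
      · exact h1.2.symm
  -- five consecutive leg edges never share a level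
  have h5 : ∀ j, j + 4 < 2 * t → lev (E j) ≠ lev (E (j + 4)) := by
    intro j hj heq5
    have g1 : lev (E j) = lev (E (j + 1)) :=
      le_antisymm (hlev _ _ (by omega) (by omega))
        (heq5.symm ▸ hlev (j + 1) (j + 4) (by omega) (by omega))
    have g2 : lev (E j) = lev (E (j + 2)) :=
      le_antisymm (hlev _ _ (by omega) (by omega))
        (heq5.symm ▸ hlev (j + 2) (j + 4) (by omega) (by omega))
    have g3 : lev (E j) = lev (E (j + 3)) :=
      le_antisymm (hlev _ _ (by omega) (by omega))
        (heq5.symm ▸ hlev (j + 3) (j + 4) (by omega) (by omega))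
    have hmid := hlo (E (j + 2))
    rcases hend (j + 2) (by omega) with h | h
    · -- the vertex `Y (j + 2)` is low
      have hC : C (Y (j + 2)) (lev (E j)) = false := by rw [← h, g2]; exact hmid
      have h0 := hlow j (j + 2) (by omega) (Or.inr rfl) hC
      have k1 := hlo' j (j + 1) (by omega) (by omega) g1
      have k2 := hlo' (j + 1) (j + 2) (by omega) (by omega) (g1.symm.trans g2)
      rw [h0] at k1
      rw [h] at k2
      have k3 := le_antisymm k2 k1
      rcases hend (j + 1) (by omega) with h' | h'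
      · have := hY _ _ (by omega) (by omega) (h'.symm.trans k3)
        omega
      · have := hY _ _ (by omega) (by omega) (h'.symm.trans k3)
        omega
    · -- the vertex `Y (j + 4)` is low
      have hC : C (Y (j + 4)) (lev (E (j + 4))) = false := by
        have h' : lo (E (j + 2)) = Y (j + 4) := h
        rw [← h', ← heq5, g2]; exact hmid
      have h0 := hlow (j + 4) (j + 4) (by omega) (Or.inl rfl) hC
      have k1 := hlo' (j + 2) (j + 3) (by omega) (by omega) (g2.symm.trans g3)
      have k2 := hlo' (j + 3) (j + 4) (by omega) (by omega) (g3.symm.trans heq5)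
      have h' : lo (E (j + 2)) = Y (j + 4) := h
      rw [h'] at k1
      rw [h0] at k2
      have k3 := le_antisymm k2 k1
      rcases hend (j + 3) (by omega) with h' | h'
      · have := hY _ _ (by omega) (by omega) (h'.symm.trans k3)
        omega
      · have := hY _ _ (by omega) (by omega) (h'.symm.trans k3)
        omega
  -- hence the levels grow
  have hgrow : ∀ i, i ≤ n → i ≤ (lev (E (4 * i)) : ℕ) := by
    intro i
    induction i with
    | zero => intro _; exact Nat.zero_le _
    | succ i ih =>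
      intro hi'
      have h1 := ih (by omega)
      have h2 := hlev (4 * i) (4 * i + 4) (by omega) (by omega)
      have h3 := h5 (4 * i) (by omega)
      have h4 : (lev (E (4 * i)) : ℕ) < (lev (E (4 * i + 4)) : ℕ) :=
        Fin.lt_def.mp (lt_of_le_of_ne h2 h3)
      have h6 : 4 * (i + 1) = 4 * i + 4 := by ring
      rw [h6]
      omega
  have hfin := hgrow n le_rfl
  have := (lev (E (4 * n))).isLt
  omega

theorem main_bounds (n : ℕ) (hn : 1 ≤ n) :
    ∃ c : ℕ, orderChromaticNumber (SimpleGraph.pathGraph (2 * (2 * n + 1) + 4))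
      (pathOrder (2 * n + 1)) = c ∧ 2 ^ n < c := by
  have hlow : ((2 ^ n + 1 : ℕ) : ℕ∞) ≤ orderChromaticNumber
      (SimpleGraph.pathGraph (2 * (2 * n + 1) + 4)) (pathOrder (2 * n + 1)) := by
    apply le_sInf
    rintro c ⟨N, H, rfl, hH⟩
    by_contra hcon
    have h1 : H.chromaticNumber < ((2 ^ n + 1 : ℕ) : ℕ∞) := not_le.mp hcon
    have h2 : H.chromaticNumber ≤ ((2 ^ n : ℕ) : ℕ∞) := by
      rw [Nat.cast_add, Nat.cast_one] at h1
      exact Order.le_of_lt_add_one h1
    have h3 : H.Colorable (2 ^ n) := SimpleGraph.chromaticNumber_le_iff_colorable.mp h2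
    obtain ⟨oH, hbad⟩ := exists_bad_order H h3 (t := 2 * n + 1) le_rfl
    exact hbad (hH oH)
  have hup : ∃ N : ℕ, orderChromaticNumber
      (SimpleGraph.pathGraph (2 * (2 * n + 1) + 4)) (pathOrder (2 * n + 1)) ≤ (N : ℕ∞) := by
    obtain ⟨N, hN⟩ := exists_complete (2 * n + 1) (by omega)
    have hle : orderChromaticNumber (SimpleGraph.pathGraph (2 * (2 * n + 1) + 4))
        (pathOrder (2 * n + 1)) ≤ (⊤ : SimpleGraph (Fin N)).chromaticNumber :=
      sInf_le ⟨N, ⊤, rfl, hN⟩
    refine ⟨N, hle.trans ?_⟩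
    have h1 : (⊤ : SimpleGraph (Fin N)).Colorable (Fintype.card (Fin N)) :=
      SimpleGraph.colorable_of_fintype _
    rw [Fintype.card_fin] at h1
    exact h1.chromaticNumber_le
  obtain ⟨N, hN⟩ := hup
  have hne : orderChromaticNumber (SimpleGraph.pathGraph (2 * (2 * n + 1) + 4))
      (pathOrder (2 * n + 1)) ≠ ⊤ := fun h => by
    rw [h] at hN
    exact absurd hN (by simp)
  obtain ⟨c, hc⟩ := ENat.ne_top_iff_exists.mp hne
  refine ⟨c, hc.symm, ?_⟩
  rw [← hc, Nat.cast_le] at hlow
  omega

theorem exists_exp_gt (p : Polynomial ℝ) :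
    ∃ n : ℕ, 1 ≤ n ∧ p.eval ((2 * (2 * n + 1) + 4 : ℕ) : ℝ) < 2 ^ n := by
  have hlog : 0 < Real.log 2 := Real.log_pos (by norm_num)
  let q : Polynomial ℝ := p.comp (Polynomial.C (4 / Real.log 2) * Polynomial.X + Polynomial.C 6)
  have h1 := Polynomial.tendsto_div_exp_atTop q
  have h2 : Tendsto (fun n : ℕ => (n : ℝ) * Real.log 2) atTop atTop :=
    (tendsto_natCast_atTop_atTop (R := ℝ)).atTop_mul_const hlog
  have h3 := h1.comp h2
  have h4 : ∀ᶠ n : ℕ in atTop, (fun x => q.eval x / Real.exp x) ((n : ℝ) * Real.log 2) < 1 :=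
    h3.eventually (gt_mem_nhds (by norm_num : (0 : ℝ) < 1))
  obtain ⟨n, hn, hn1⟩ := (h4.and (eventually_ge_atTop 1)).exists
  refine ⟨n, hn1, ?_⟩
  simp only at hn
  rw [div_lt_one (Real.exp_pos _)] at hn
  have h5 : Real.exp ((n : ℝ) * Real.log 2) = 2 ^ n := by
    rw [mul_comm, Real.exp_mul, Real.exp_log (by norm_num), Real.rpow_natCast]
  have h6 : q.eval ((n : ℝ) * Real.log 2) = p.eval ((2 * (2 * n + 1) + 4 : ℕ) : ℝ) := by
    simp only [q, Polynomial.eval_comp, Polynomial.eval_add, Polynomial.eval_mul,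
      Polynomial.eval_C, Polynomial.eval_X]
    congr 1
    push_cast
    field_simp
    ring
  rw [h5, h6] at hn
  exact hn

end Pool.Agent.MP_dc39f7_co
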